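import Pool.Agent.helper79.SX.Spec

/-!
# Project sx, module CRS
-/

set_option autoImplicit false

open Finset ArithmeticFunction

namespace Pool.Agent.SX

theorem CRS_allB (n : ℕ) (p : ℕ → Bool) (h : allB n p = true) : ∀ i < n, p i = true := by
  induction n with
  | zero => intro i hi; omega
  | succ n ih =>
    have h1 : (p n && allB n p) = true := h
    rw [Bool.and_eq_true] at h1
    intro i hi
    rcases Nat.lt_succ_iff_lt_or_eq.mp hi with h2 | h2
    · exact ih h1.2 i h2
    · rw [h2]; exact h1.1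

theorem CRS_chk (m L L' : ℕ) (h : chkC m L L' = true) (i : ℕ) (hi : i ≤ 900) (hm : m ≤ i) :
    (i ≤ 450 → dig L (2 * i) ≤ dig L' i) ∧
    (450 < i → 600 * 1099511627776 ≤ dig L' i * 3 ^ (i / 30)) := by
  have h1 := CRS_allB 901 _ h i (by omega)
  simp only [Bool.or_eq_true] at h1
  rcases h1 with h1 | h1
  · have : i < m := by simpa [Nat.blt_eq] using h1
    omega
  · constructor
    · intro h2
      have h3 : Nat.ble i 450 = true := Nat.ble_eq.mpr h2
      rw [h3] at h1
      exact Nat.ble_eq.mp h1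
    · intro h2
      have h3 : Nat.ble i 450 = false := by
        rw [← Bool.not_eq_true, Nat.ble_eq]
        omega
      rw [h3] at h1
      exact Nat.ble_eq.mp h1

theorem CRS_div (L i m : ℕ) (h : 600 * 1099511627776 ≤ dig L i * 3 ^ m) :
    (600 : ℝ) / 3 ^ m ≤ (dig L i : ℝ) / 2 ^ 40 := by
  rw [div_le_div_iff₀ (by positivity) (by positivity)]
  have h1 : ((600 * 1099511627776 : ℕ) : ℝ) ≤ ((dig L i * 3 ^ m : ℕ) : ℝ) := by exact_mod_cast h
  push_cast at h1
  norm_num at h1 ⊢
  exact h1

theorem CRS (hMON : MON_stmt) : CRS_stmt := by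
  intro u L U L' U' hu hT hTail hL hU
  obtain ⟨mU, mL, -⟩ := hMON (60 * u) (by omega)
  constructor
  · intro i hi
    obtain ⟨c1, c2⟩ := CRS_chk 0 L L' hL i hi (by omega)
    rcases Nat.lt_or_ge 450 i with h | h
    · refine mL (i / 30 * (60 * u)) _ _ _ ?_ (CRS_div L' i (i / 30) (c2 h))
        (hTail (i / 30) (by omega)).1
      have : 30 * (i / 30) ≤ i := Nat.mul_div_le i 30
      nlinarith
    · refine mL (2 * i * u) _ _ _ ?_ ?_ (hT.1 (2 * i) (by omega))
      · exact le_of_eq (by ring)
      · apply div_le_div_of_nonneg_right _ (by positivity)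
        exact_mod_cast c1 h
  · intro i h30 hi
    obtain ⟨c1, c2⟩ := CRS_chk 30 U U' hU i hi h30
    rcases Nat.lt_or_ge 450 i with h | h
    · refine mU (i / 30 * (60 * u)) _ _ _ ?_ (CRS_div U' i (i / 30) (c2 h))
        (hTail (i / 30) (by omega)).2
      have : 30 * (i / 30) ≤ i := Nat.mul_div_le i 30
      nlinarith
    · refine mU (2 * i * u) _ _ _ ?_ ?_ (hT.2 (2 * i) (by omega) (by omega))
      · exact le_of_eq (by ring)
      · apply div_le_div_of_nonneg_right _ (by positivity)
        exact_mod_cast c1 h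

end Pool.Agent.SX
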